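import Mathlib

set_option autoImplicit false
open Set Filter Topology Metric Real InnerProductSpace Complex

namespace Pool.Agent.Results.MP_e6ddea_an.FinitePunctures

lemma noharm {u : ℂ → ℝ} {z : ℂ} (h : HarmonicAt u z) (h0 : ∀ᶠ w in 𝓝 z, 0 ≤ u w) (hz : u z = 0) :
    ∀ᶠ w in 𝓝 z, u w ≤ 0 := by
  obtain ⟨ε, e0, hε⟩ := Metric.eventually_nhds_iff.1 (h.eventually.and h0)
  filter_upwards [ball_mem_nhds z e0] with w hw
  by_contra! c
  have s0 : 0 < dist w z := dist_pos.2 fun k => by simp [k, hz] at c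
  have a : circleAverage u z (dist w z) = u z := HarmonicOnNhd.circleAverage_eq fun y hy =>
    (hε (by rw [abs_of_pos s0] at hy; exact lt_of_le_of_lt hy hw)).1
  have b (θ : ℝ) := hε (y := circleMap z (dist w z) θ) (by rw [circleMap_mem_sphere z s0.le θ]; exact hw)
  obtain ⟨θ, hθ, e⟩ : w ∈ circleMap z (dist w z) '' Ioc 0 (2 * π) := by
    rw [image_circleMap_Ioc, abs_of_pos s0]; rfl
  have := intervalIntegral.integral_lt_integral_of_continuousOn_of_le_of_exists_lt two_pi_pos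
    (f := fun _ => 0) (g := fun θ => u (circleMap z (dist w z) θ)) continuousOn_const
    (fun θ _ => ((b θ).1.1.continuousAt.comp (continuous_circleMap _ _).continuousAt).continuousWithinAt)
    (fun θ _ => (b θ).2) ⟨θ, Ioc_subset_Icc_self hθ, by simpa [e]⟩
  rw [circleAverage, hz, smul_eq_mul, mul_eq_zero] at a
  simp [a.resolve_left (by simp [pi_ne_zero])] at this

lemma MP {Ω : Set ℂ} (ho : IsOpen Ω) {f : ℂ → ℝ} (hf : HarmonicOnNhd f Ω)
    (hK : ∀ δ > (0 : ℝ), ∃ K, IsCompact K ∧ K ⊆ Ω ∧ ∀ z ∈ Ω, δ ≤ f z → z ∈ K) : ∀ z ∈ Ω, f z ≤ 0 := by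
  intro z hz
  by_contra! c
  obtain ⟨K, cK, s, h⟩ := hK _ c
  have cf := hf.continuousOn.mono s
  obtain ⟨p, hp, m⟩ := cK.exists_isMaxOn ⟨z, h z hz le_rfl⟩ cf
  have zp : f z ≤ f p := m (h z hz le_rfl)
  have le (w : ℂ) (hw : w ∈ Ω) : f w ≤ f p := by
    by_cases k : f z ≤ f w
    · exact m (h w hw k)
    · linarith
  have cl : IsClopen (K ∩ f ⁻¹' {f p}) := ⟨cf.preimage_isClosed_of_isClosed cK.isClosed isClosed_singleton,
    isOpen_iff_mem_nhds.2 fun w hw => by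
      have n := ho.mem_nhds (s hw.1)
      filter_upwards [n, noharm ((harmonicAt_const (f p)).sub (hf w (s hw.1)))
        (mem_of_superset n fun y hy => sub_nonneg.2 (le y hy)) (sub_eq_zero.2 hw.2.symm)] with y hy k
      have k : f p ≤ f y := sub_nonpos.1 k
      exact ⟨h y hy (zp.trans k), (le y hy).antisymm k⟩⟩
  have := cl.eq_univ ⟨p, hp, rfl⟩
  exact noncompact_univ ℂ (eq_univ_of_univ_subset (this ▸ inter_subset_left) ▸ cK)

lemma nI {z : ℂ} (h : 0 < z.im) : 1 ≤ ‖z + I‖ :=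
  le_trans (by simp [le_abs]; exact .inl h.le) (abs_im_le_norm _)

noncomputable def P (a z : ℂ) : ℝ := Real.log ‖z + I‖ + Real.log (1 + ‖a + I‖) - Real.log ‖z - a‖

lemma hlog {z c : ℂ} (h : z + c ≠ 0) : HarmonicAt (fun z : ℂ => Real.log ‖z + c‖) z :=
  AnalyticAt.harmonicAt_log_norm (f := fun z => z + c) (by fun_prop) h

lemma nI' {z : ℂ} (h : 0 < z.im) : z + I ≠ 0 := norm_pos_iff.1 (one_pos.trans_le (nI h))

lemma Ph {a z : ℂ} (h : 0 < z.im) (ha : z ≠ a) : HarmonicAt (P a) z :=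
  ((hlog (nI' h)).add (harmonicAt_const _)).sub (hlog (c := -a) (sub_ne_zero.2 ha))

lemma Pb {a z : ℂ} (h : 0 < z.im) (ha : z ≠ a) : 0 ≤ P a z ∧ -Real.log ‖z - a‖ ≤ P a z := by
  have n := nI h
  have n2 := norm_nonneg (a + I)
  have l1 := Real.log_nonneg n
  have l2 := Real.log_nonneg (show 1 ≤ 1 + ‖a + I‖ by linarith)
  refine ⟨?_, by unfold P; linarith⟩
  rw [P, ← Real.log_mul (by linarith) (by linarith), sub_nonneg]
  refine Real.log_le_log (norm_pos_iff.2 (sub_ne_zero.2 ha)) ?_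
  have := norm_sub_le (z + I) (a + I)
  rw [add_sub_add_right_eq_sub] at this
  nlinarith

lemma Psum (E : Finset ℂ) {z : ℂ} (h : 0 < z.im) (hz : z ∉ E) :
    HarmonicAt (fun w => ∑ a ∈ E, P a w) z := by
  classical
  induction E using Finset.induction_on with
  | empty => simpa using harmonicAt_const (0 : ℝ)
  | insert a s ha ih =>
    simp only [Finset.mem_insert, not_or] at hz
    simp only [Finset.sum_insert ha]
    exact (Ph h hz.1).add (ih hz.2)

/-- A Phragmén–Lindelöf principle in the upper half-plane with a finite exceptional set. -/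
lemma PL {Ω : Set ℂ} (ho : IsOpen Ω) (E : Finset ℂ) (hΩ : ∀ z ∈ Ω, 0 < z.im ∧ z ∉ E) {w : ℂ → ℝ}
    (hw : HarmonicOnNhd w Ω) {C : ℝ} (hC : ∀ z ∈ Ω, w z ≤ C)
    (hb : ∀ q : ℂ, 0 ≤ q.im → q ∉ Ω → q ∉ E → ∀ δ > (0 : ℝ), ∀ᶠ z in 𝓝 q, z ∈ Ω → w z < δ) :
    ∀ z ∈ Ω, w z ≤ 0 := by
  obtain ⟨Φ, hΦ⟩ : ∃ Φ : ℂ → ℝ, Φ = fun z => Real.log ‖z + I‖ + ∑ a ∈ E, P a z := ⟨_, rfl⟩
  have ne : ∀ z, z ∉ E → ∀ a ∈ E, z ≠ a := fun z hz a ha e => hz (e ▸ ha)
  have hΦh : ∀ z, 0 < z.im → z ∉ E → HarmonicAt Φ z := fun z h1 h2 => by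
    rw [hΦ]; exact (hlog (nI' h1)).add (Psum E h1 h2)
  have hΦ1 : ∀ z, 0 < z.im → z ∉ E → Real.log ‖z + I‖ ≤ Φ z := fun z h1 h2 => by
    rw [hΦ]
    exact le_add_of_nonneg_right (Finset.sum_nonneg fun a ha => (Pb h1 (ne z h2 a ha)).1)
  have hΦa : ∀ z, 0 < z.im → z ∉ E → ∀ a ∈ E, -Real.log ‖z - a‖ ≤ Φ z := fun z h1 h2 a ha => by
    rw [hΦ]
    refine (Pb h1 (ne z h2 a ha)).2.trans ((Finset.single_le_sum (f := fun a => P a z)
      (fun a ha => (Pb h1 (ne z h2 a ha)).1) ha).trans (le_add_of_nonneg_left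
      (Real.log_nonneg (nI h1))))
  have key (ε : ℝ) (e0 : 0 < ε) : ∀ z ∈ Ω, w z - ε * Φ z ≤ 0 := by
    refine MP ho (fun z hz => (hw z hz).sub
      ((hΦh z (hΩ z hz).1 (hΩ z hz).2).const_smul (c := ε))) fun δ d0 => ?_
    set S := {z ∈ Ω | δ ≤ w z - ε * Φ z}
    have m (z : ℂ) (hz : z ∈ S) : δ ≤ w z ∧ z ∈ closedBall (-I) (rexp (C / ε)) ∩ ({z : ℂ | 0 ≤ z.im} ∩
        (⋂ a ∈ E, (ball a (rexp (-(C / ε))))ᶜ)) := by
      obtain ⟨h1, h2⟩ := hΩ z hz.1
      have l := (Real.log_nonneg (nI h1)).trans (hΦ1 z h1 h2)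
      have := hz.2
      have := hC z hz.1
      have t : Φ z ≤ C / ε := by rw [le_div_iff₀ e0]; linarith
      have g (c : ℂ) (k : z ≠ c) (j : -Real.log ‖z - c‖ ≤ C / ε) : z ∉ ball c (rexp (-(C / ε))) := by
        rw [mem_ball_iff_norm, not_lt, ← Real.le_log_iff_exp_le (norm_pos_iff.2 (sub_ne_zero.2 k))]
        linarith
      refine ⟨by nlinarith [mul_nonneg e0.le l], ?_, h1.le,
        mem_iInter₂.2 fun a ha => g a (ne z h2 a ha) ((hΦa z h1 h2 a ha).trans t)⟩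
      rw [mem_closedBall_iff_norm, sub_neg_eq_add, ← Real.log_le_iff_le_exp (one_pos.trans_le (nI h1))]
      exact (hΦ1 z h1 h2).trans t
    have cl := closure_minimal (fun z hz => (m z hz).2) (isClosed_closedBall.inter
      ((isClosed_le continuous_const continuous_im).inter
        (isClosed_biInter fun a _ => isOpen_ball.isClosed_compl)))
    refine ⟨closure S, (isCompact_closedBall _ _).of_isClosed_subset isClosed_closure
      (cl.trans inter_subset_left), fun q hq => ?_, fun z hz k => subset_closure ⟨hz, k⟩⟩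
    by_contra c
    obtain ⟨-, h1, h2⟩ := cl hq
    obtain ⟨z, hz, k⟩ := ((mem_closure_iff_frequently.1 hq).and_eventually (hb q h1 c
      (fun e => mem_iInter₂.1 h2 q e (mem_ball_self (exp_pos _))) δ d0)).exists
    exact (k hz.1).not_ge (m z hz).1
  intro z hz
  refine ge_of_tendsto (f := fun ε : ℝ => ε * Φ z) (x := 𝓝[>] 0)
    ((Continuous.tendsto' (by fun_prop) _ _ (by simp)).mono_left nhdsWithin_le_nhds) ?_
  filter_upwards [self_mem_nhdsWithin] with ε e0 using sub_nonpos.1 (key ε e0 z hz)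

lemma hcomp {u : ℂ → ℝ} {φ : ℂ → ℂ} {z : ℂ} (h : HarmonicAt u (φ z)) (hφ : AnalyticAt ℂ φ z) :
    HarmonicAt (fun z => u (φ z)) z := by
  obtain ⟨ε, e0, hε⟩ := Metric.eventually_nhds_iff_ball.1 h.eventually
  obtain ⟨F, aF, e⟩ := HarmonicOnNhd.exists_analyticOnNhd_ball_re_eq hε
  refine (harmonicAt_congr_nhds ?_).1 ((aF _ (mem_ball_self e0)).comp hφ).harmonicAt_re
  filter_upwards [hφ.continuousAt (ball_mem_nhds _ e0)] with y hy using e hy

lemma harnack {u : ℂ → ℝ} {c w : ℂ} {R : ℝ} (h : HarmonicOnNhd u (closedBall c R))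
    (h0 : ∀ z ∈ closedBall c R, 0 ≤ u z) (hw : w ∈ ball c R) :
    u w ≤ (R + ‖w - c‖) / (R - ‖w - c‖) * u c := by
  have R0 := pos_of_mem_ball hw
  have aR := abs_of_pos R0
  have cu : ContinuousOn u (sphere c |R|) := h.continuousOn.mono (by rw [aR]; exact sphere_subset_closedBall)
  rw [← h.circleAverage_re_herglotzRieszKernel_smul hw, ← HarmonicOnNhd.circleAverage_eq (f := u) (c := c) (R := R) (aR.symm ▸ h),
    ← smul_eq_mul, ← circleAverage_smul]
  refine circleAverage_mono (ContinuousOn.circleIntegrable' (.smul (continuous_re.comp_continuousOn ?_) cu))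
    (ContinuousOn.circleIntegrable' (cu.const_smul _)) fun z hz => ?_
  · simpa [aR] using continuousOn_herglotzRieszKernel_sphere hw
  rw [aR] at hz
  exact mul_le_mul_of_nonneg_right (re_herglotzRieszKernel_le hz hw) (h0 z (sphere_subset_closedBall hz))

/-- The open upper half-plane with the points of `F` removed. -/
def D (F : Finset ℂ) : Set ℂ := {z | 0 < z.im ∧ z ∉ F}

lemma Do (F : Finset ℂ) : IsOpen (D F) :=
  (isOpen_lt continuous_const continuous_im).inter F.finite_toSet.isClosed.isOpen_compl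

lemma him (z : ℂ) : HarmonicAt im z := analyticAt_id.harmonicAt_im

lemma small {q : ℂ} (h : q.im = 0) {δ : ℝ} (d : 0 < δ) : ∀ᶠ z in 𝓝 q, z.im < δ :=
  continuous_im.continuousAt.eventually_lt continuousAt_const (by simpa [h])

section bounded
variable {F : Finset ℂ} {M : ℝ} (hM0 : 0 < M) (hM : ∀ a ∈ F, a.im ≤ M)
include hM0 hM

lemma transl {u : ℂ → ℝ} (hu : HarmonicOnNhd u (D F)) (h : ∀ z ∈ D F, 0 < u z ∧ u z ≤ z.im) (t : ℝ) :
    ∀ z ∈ D F ∩ (· + (t : ℂ)) ⁻¹' D F, u (z + t) - u z ≤ 0 := by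
  classical
  have t0 := abs_nonneg t
  refine PL ((Do F).inter ((Do F).preimage (by fun_prop))) (F ∪ F.image (· - (t : ℂ)))
    (fun z hz => ⟨hz.1.1, ?_⟩)
    (fun z hz => (hcomp (φ := (· + (t : ℂ))) (hu _ hz.2) (by fun_prop)).sub (hu z hz.1))
    (C := 2 * M + 1 + 8 * |t|) (fun z hz => ?_) fun q q0 c cE δ d0 => ?_
  · rw [Finset.mem_union, not_or]
    refine ⟨hz.1.2, fun h => ?_⟩
    obtain ⟨a, ha, rfl⟩ := Finset.mem_image.1 h
    exact hz.2.2 (by simpa using ha)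
  · have a := h z hz.1
    have b := h _ hz.2
    simp only [add_im, ofReal_im, add_zero] at b
    by_cases y : z.im ≤ 2 * M + 1 + 4 * |t|
    · linarith
    push Not at y
    have s : closedBall z (z.im / 2) ⊆ D F := fun w hw => by
      have := abs_le.1 ((abs_im_le_norm _).trans (mem_closedBall_iff_norm.1 hw))
      rw [sub_im] at this
      exact ⟨by linarith, fun e => by linarith [hM w e]⟩
    have n : ‖z + t - z‖ = |t| := by simp
    have := harnack (hu.mono s) (fun w hw => (h w (s hw)).1.le) (w := z + t)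
      (mem_ball_iff_norm.2 (by linarith))
    rw [n, div_mul_eq_mul_div, le_div_iff₀ (by linarith)] at this
    by_contra! k
    nlinarith [mul_le_mul_of_nonneg_left a.2 t0, mul_pos (show 0 < u (z + t) - u z - 8 * |t| by linarith)
      (show 0 < z.im / 2 - |t| by linarith), mul_nonneg t0 (show 0 ≤ z.im - 4 * |t| by linarith)]
  · rw [Finset.mem_union, not_or] at cE
    have : q.im = 0 := by
      by_contra k
      have := q0.lt_of_ne' k
      refine c ⟨⟨this, cE.1⟩, by simpa, fun e => cE.2 (Finset.mem_image.2 ⟨_, e, by simp⟩)⟩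
    filter_upwards [small this d0] with z hz m
    have a := h z m.1
    have b := h _ m.2
    simp only [add_im, ofReal_im, add_zero] at b
    linarith

lemma horiz {u : ℂ → ℝ} (hu : HarmonicOnNhd u (D F)) (h : ∀ z ∈ D F, 0 < u z ∧ u z ≤ z.im) {z w : ℂ}
    (hz : z ∈ D F) (hw : w ∈ D F) (e : z.im = w.im) : u z ≤ u w := by
  have k : w + (z.re - w.re : ℝ) = z := Complex.ext (by simp) (by simp [e])
  have := transl hM0 hM hu h (z.re - w.re) w ⟨hw, by simpa only [mem_preimage, k]⟩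
  rwa [k, sub_nonpos] at this

lemma strip {u : ℂ → ℝ} (hu : HarmonicOnNhd u (D F)) (h : ∀ z ∈ D F, 0 < u z ∧ u z ≤ z.im) {b : ℝ}
    (hb : M < b) (s : ℝ) :
    ∀ z ∈ D F ∩ {z | z.im < b}, s * (u z - u (b * I) / b * z.im) ≤ 0 := by
  have m (q : ℂ) (e : q.im = b) : q ∈ D F := ⟨by linarith, fun k => by linarith [hM q k]⟩
  have bI := m (b * I) (by simp)
  have c0 : 0 < u (b * I) / b := div_pos (h _ bI).1 (by linarith)
  have c1 : u (b * I) / b ≤ 1 := (div_le_one (by linarith)).2 (by simpa using (h _ bI).2)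
  have hw (z : ℂ) (hz : z ∈ D F) : HarmonicAt (fun z => s * (u z - u (b * I) / b * z.im)) z :=
    ((hu z hz).sub ((him z).const_smul (c := u (b * I) / b))).const_smul (c := s)
  have bd (z : ℂ) (hz : z ∈ D F) : s * (u z - u (b * I) / b * z.im) ≤ |s| * z.im := by
    have := h z hz
    have := hz.1
    refine (le_abs_self _).trans ((abs_mul _ _).trans_le (mul_le_mul_of_nonneg_left
      (abs_le.2 ⟨?_, ?_⟩) (abs_nonneg s))) <;> nlinarith
  refine PL ((Do F).inter (isOpen_lt continuous_im continuous_const)) F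
    (fun z hz => hz.1) (fun z hz => hw z hz.1) (C := |s| * b)
    (fun z hz => (bd z hz.1).trans (mul_le_mul_of_nonneg_left (le_of_lt hz.2) (abs_nonneg s)))
    fun q q0 c ca δ d0 => ?_
  rcases q0.eq_or_lt with k | k
  · have : ∀ᶠ z in 𝓝 q, |s| * z.im < δ :=
      ContinuousAt.eventually_lt (by fun_prop) continuousAt_const (by simpa [← k])
    exact this.mono fun z hz m => (bd z m.1).trans_lt hz
  rcases (not_lt.1 fun j : q.im < b => c ⟨⟨k, ca⟩, j⟩).eq_or_lt with j | j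
  · have qD := m q j.symm
    have e : u q = u (b * I) := (horiz hM0 hM hu h qD bI (by simp [j])).antisymm
      (horiz hM0 hM hu h bI qD (by simp [j]))
    exact ((hw q qD).1.continuousAt.eventually_lt continuousAt_const (by
      rw [← j, div_mul_cancel₀ _ (by linarith), e]; simpa)).mono fun z hz _ => hz
  · exact (continuousAt_const.eventually_lt continuous_im.continuousAt j).mono fun z hz m =>
      absurd m.2 (not_lt.2 hz.le)

end bounded

/-- The imaginary part is a minimal positive harmonic function on `D F`. -/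
lemma Kmin {F : Finset ℂ} (hI : I ∈ D F) {u : ℂ → ℝ} (hu : HarmonicOnNhd u (D F))
    (h : ∀ z ∈ D F, 0 < u z ∧ u z ≤ z.im) :
    ∀ z ∈ D F, u z = u I * z.im := fun z hz => by
  obtain ⟨M, hM0, hM⟩ : ∃ M : ℝ, 0 < M ∧ ∀ a ∈ F, a.im ≤ M :=
    ⟨1 + ∑ a ∈ F, |a.im|, by positivity, fun a ha => (le_abs_self _).trans
      ((Finset.single_le_sum (f := fun a : ℂ => |a.im|) (fun _ _ => abs_nonneg _) ha).trans
        (by linarith))⟩
  have hb : M < max (max z.im 1) M + 1 := by linarith [le_max_right (max z.im 1) M]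
  have hb1 : max z.im 1 < max (max z.im 1) M + 1 := by linarith [le_max_left (max z.im 1) M]
  generalize max (max z.im 1) M + 1 = b at hb hb1
  rw [max_lt_iff] at hb1
  have e (w : ℂ) (hw : w ∈ D F) (k : w.im < b) : u w = u (b * I) / b * w.im := by
    linarith [strip hM0 hM hu h hb 1 w ⟨hw, k⟩, strip hM0 hM hu h hb (-1) w ⟨hw, k⟩]
  rw [e z hz hb1.1, e I hI (by rw [I_im]; exact hb1.2), I_im, mul_one]

/-- The Green function of the upper half-plane with pole `a`. -/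
noncomputable def G (a z : ℂ) : ℝ := Real.log ‖z - starRingEnd ℂ a‖ - Real.log ‖z - a‖

lemma ncj {a z : ℂ} (ha : 0 < a.im) (hz : 0 ≤ z.im) : z - starRingEnd ℂ a ≠ 0 := fun e => by
  have := congrArg im e
  simp at this; linarith

lemma nlt {a z : ℂ} (ha : 0 < a.im) (hz : 0 < z.im) : ‖z - a‖ < ‖z - starRingEnd ℂ a‖ := by
  rw [← sq_lt_sq₀ (norm_nonneg _) (norm_nonneg _), Complex.sq_norm, Complex.sq_norm, normSq_apply,
    normSq_apply]
  simp only [sub_re, sub_im, conj_re, conj_im]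
  nlinarith [mul_pos ha hz]

lemma Gh {a : ℂ} (ha : 0 < a.im) {z : ℂ} (h : 0 < z.im) (k : z ≠ a) :
    HarmonicAt (G a) z ∧ 0 < G a z := by
  refine ⟨?_, sub_pos.2 (Real.log_lt_log (norm_pos_iff.2 (sub_ne_zero.2 k)) (nlt ha h))⟩
  have h1 : HarmonicAt (fun z : ℂ => Real.log ‖z + -starRingEnd ℂ a‖) z :=
    hlog (by simpa [sub_eq_add_neg] using ncj ha h.le)
  have h2 : HarmonicAt (fun z : ℂ => Real.log ‖z + -a‖) z := hlog (c := -a) (sub_ne_zero.2 k)
  simpa only [G, ← sub_eq_add_neg] using! h1.sub h2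

lemma Gmin {F : Finset ℂ} {a : ℂ} (ha : a ∈ D F) {u h : ℂ → ℝ} (u0 : ∀ z ∈ D F \ {a}, 0 < u z)
    (hh : HarmonicOnNhd h (D F))
    (e : ∀ z ∈ D F \ {a}, h z = u z + Real.log ‖z - a‖) : ∀ z ∈ D F \ {a}, G a z ≤ u z := by
  have hl (z : ℂ) (hz : 0 ≤ z.im) : HarmonicAt (fun z => Real.log ‖z - starRingEnd ℂ a‖) z := by
    have h1 : HarmonicAt (fun z : ℂ => Real.log ‖z + -starRingEnd ℂ a‖) z :=
      hlog (by simpa [sub_eq_add_neg] using ncj ha.1 hz)
    simpa only [← sub_eq_add_neg] using! h1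
  have hw (z : ℂ) (hz : z ∈ D F) : HarmonicAt (fun z => Real.log ‖z - starRingEnd ℂ a‖ - h z) z :=
    (hl z hz.1.le).sub (hh z hz)
  have lt (z : ℂ) (hz : z ∈ D F) (k : z ≠ a) : Real.log ‖z - starRingEnd ℂ a‖ - h z < G a z := by
    rw [e z ⟨hz, k⟩, G]; linarith [u0 z ⟨hz, k⟩]
  obtain ⟨ρ, ρ0, hρ⟩ := Metric.eventually_nhds_iff.1 ((hw a ha).1.continuousAt.eventually_lt continuousAt_const
    (lt_add_one _))
  have := PL (Do F) F (fun z hz => hz) hw
    (C := max (Real.log ‖a - starRingEnd ℂ a‖ - h a + 1) (Real.log (1 + 2 * a.im / ρ)))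
    (fun z hz => ?_) fun q q0 c ca δ d0 => ?_
  · intro z hz
    have := this z hz.1
    rw [e z hz] at this
    unfold G; linarith
  · by_cases k : dist z a < ρ
    · exact le_max_of_le_left (hρ k).le
    rw [not_lt, dist_eq_norm] at k
    have n : 0 < ‖z - a‖ := ρ0.trans_le k
    refine le_max_of_le_right ((lt z hz (sub_ne_zero.1 (norm_pos_iff.1 n))).le.trans ?_)
    have pa : 0 ≤ 2 * a.im / ρ := div_nonneg (by linarith [ha.1]) ρ0.le
    rw [G, sub_le_iff_le_add, ← Real.log_mul (by positivity) n.ne']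
    refine Real.log_le_log (norm_pos_iff.2 (ncj ha.1 hz.1.le)) ?_
    have := norm_add_le (z - a) (a - starRingEnd ℂ a)
    have e2 : ‖a - starRingEnd ℂ a‖ = 2 * a.im := by
      rw [show a - starRingEnd ℂ a = ((2 * a.im : ℝ) : ℂ) * I from
        Complex.ext (by simp) (by simp; ring)]
      rw [norm_mul, norm_I, mul_one, norm_real, Real.norm_eq_abs, abs_of_pos (by linarith [ha.1])]
    rw [sub_add_sub_cancel, e2] at this
    have j : 2 * a.im / ρ * ρ ≤ 2 * a.im / ρ * ‖z - a‖ := by gcongr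
    rw [div_mul_cancel₀ _ ρ0.ne'] at j
    linarith
  · have q0 : q.im = 0 := by
      by_contra k
      exact c ⟨q0.lt_of_ne' k, ca⟩
    have b : q - a ≠ 0 := fun e => by
      have := congrArg im e
      simp [q0] at this
      linarith [ha.1]
    have h2 : HarmonicAt (fun z : ℂ => Real.log ‖z + -a‖) q := hlog (c := -a) b
    have h3 : HarmonicAt (G a) q := by
      simpa only [G, ← sub_eq_add_neg] using! (hl q q0.ge).sub h2
    have cG : ContinuousAt (G a) q := h3.1.continuousAt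
    have G0 : G a q = 0 := by
      rw [G, sub_eq_zero]
      congr 1
      rw [← norm_conj (q - a)]
      congr 1
      exact Complex.ext (by simp) (by simp [q0])
    filter_upwards [cG.eventually_lt continuousAt_const (G0 ▸ d0), eventually_ne_nhds (sub_ne_zero.1 b)]
      with z hz k m using (lt z m k).trans hz

lemma Dc (F : Finset ℂ) : IsConnected (D F) := by
  let φ : ℂ → ℂ := fun z => (z.re : ℂ) + (Real.exp z.im : ℂ) * I
  have hφ : Continuous φ := by fun_prop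
  have hre : ∀ z, (φ z).re = z.re := fun z => by simp [φ]
  have him : ∀ z, (φ z).im = Real.exp z.im := fun z => by
    simp only [φ, add_im, ofReal_im, zero_add, im_ofReal_mul, I_im, mul_one]
  have hi : Function.Injective φ := fun z w e => Complex.ext
    (by have := congrArg re e; rwa [hre, hre] at this)
    (Real.exp_injective (by have := congrArg im e; rwa [him, him] at this))
  have hc : (φ ⁻¹' (F : Set ℂ)).Countable := (F.finite_toSet.preimage hi.injOn).countable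
  have h1 := (hc.isPathConnected_compl_of_one_lt_rank
    (by rw [Complex.rank_real_complex]; norm_num)).isConnected
  have h2 : D F = φ '' (φ ⁻¹' (F : Set ℂ))ᶜ := by
    ext z
    constructor
    · rintro ⟨h, h'⟩
      have e : φ ((z.re : ℂ) + (Real.log z.im : ℂ) * I) = z := Complex.ext
        (by rw [hre]; simp) (by rw [him]; simp [Real.exp_log h])
      exact ⟨_, fun k => h' (by rw [mem_preimage, e] at k; exact k), e⟩
    · rintro ⟨w, hw, rfl⟩
      exact ⟨by rw [him]; exact Real.exp_pos _, fun k => hw k⟩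
  rw [h2]
  exact h1.image φ hφ.continuousOn

lemma nsc {U : Set ℂ} (ho : IsOpen U) {g : ℂ → ℂ} (cg : ContinuousOn g U) (h0 : 0 ∉ g '' U) {β : ℝ → ℂ}
    (cb : Continuous β) (hb : ∀ t, β t ∈ U) (p : β (2 * π) = β 0)
    (e : ∀ t : ℝ, g (β t) = g (β 0) * cexp (t * I)) : ¬ IsSimplyConnected U := fun h => by
  obtain ⟨l, cl, hl⟩ := exists_continuousOn_eqOn_exp_comp h ho cg h0
  have := isCoveringMap_exp.eq_of_comp_eq (cl.comp_continuous cb hb)
    (g₂ := fun t : ℝ => l (β 0) + t * I) (by fun_prop) (funext fun t => Subtype.ext (by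
      have a := hl (hb t); have b := hl (hb 0)
      simp only [Function.comp] at a b ⊢
      rw [a, Complex.exp_add, b, ← e])) 0 (by simp)
  have := congrFun this (2 * π)
  simp [p] at this

lemma Dn {F : Finset ℂ} {p : ℂ} (hp : p ∈ F) (hp0 : 0 < p.im) : ¬ SimplyConnectedSpace (D F) := by
  classical
  obtain ⟨r, hr0, hr1, hr⟩ : ∃ r : ℝ, 0 < r ∧ r < p.im ∧ ∀ a ∈ F.erase p, r < dist a p := by
    have h1 : ∀ᶠ r : ℝ in 𝓝[>] 0, ∀ a ∈ F.erase p, r < dist a p := by
      rw [Filter.eventually_all_finset]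
      intro a ha
      exact mem_nhdsWithin_of_mem_nhds (Iio_mem_nhds (dist_pos.2 (Finset.ne_of_mem_erase ha)))
    have h2 : ∀ᶠ r : ℝ in 𝓝[>] 0, r < p.im := mem_nhdsWithin_of_mem_nhds (Iio_mem_nhds hp0)
    have h0 : ∀ᶠ r : ℝ in 𝓝[>] 0, 0 < r := self_mem_nhdsWithin
    obtain ⟨r, h3, h4, h5⟩ := (h0.and (h1.and h2)).exists
    exact ⟨r, h3, h5, h4⟩
  refine nsc (Do F) (g := fun z => z - p) (by fun_prop)
    (fun ⟨z, h, e⟩ => h.2 (by rw [sub_eq_zero.1 e]; exact hp))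
    (β := fun t => p + r * cexp (t * I)) (by fun_prop) (fun t => ⟨?_, fun hF => ?_⟩) (by simp)
    (by intro t; simp)
  · simp only [add_im, im_ofReal_mul, exp_ofReal_mul_I_im]
    nlinarith [neg_one_le_sin t]
  · have hd : dist (p + r * cexp (t * I)) p = r := by
      rw [dist_eq_norm, add_sub_cancel_left, norm_mul, norm_exp_ofReal_mul_I, mul_one, norm_real,
        Real.norm_eq_abs, abs_of_pos hr0]
    have hne : p + r * cexp (t * I) ≠ p := by
      intro h
      rw [h, dist_self] at hd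
      exact hr0.ne hd
    have := hr _ (Finset.mem_erase.2 ⟨hne, hF⟩)
    rw [hd] at this
    exact lt_irrefl _ this

lemma notouch {F : Finset ℂ} {b : ℝ} (hb : 1 < b) (hF : (b : ℂ) * I ∈ F) :
    ∀ᶠ z in 𝓝[≠] I, z ∈ D F → ∃ u : ℂ → ℝ, HarmonicOnNhd u (D F) ∧ (∀ w ∈ D F, 0 < u w) ∧
      u I ≤ 1 ∧ z.im < u z := by
  have b1 : 0 < b - 1 := by linarith
  have b2 : 0 < b + 1 := by linarith
  have bim : 0 < ((b : ℂ) * I).im := by simp; linarith
  have g (y : ℝ) (y0 : 0 < y) (y2 : y < b) : G ((b : ℂ) * I) (y * I) = Real.log (y + b) - Real.log (b - y) := by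
    have e1 : (y : ℂ) * I - starRingEnd ℂ ((b : ℂ) * I) = ((y + b : ℝ) : ℂ) * I := by
      simp; ring
    have e2 : (y : ℂ) * I - (b : ℂ) * I = ((y - b : ℝ) : ℂ) * I := by push_cast; ring
    rw [G, e1, e2]
    simp only [Complex.norm_mul, norm_real, norm_I, mul_one, Real.norm_eq_abs, Real.log_abs]
    rw [← Real.log_neg_eq_log (y - b), neg_sub]
  -- the derivative at 1
  set L := Real.log (1 + b) - Real.log (b - 1) with hL
  have L0 : 0 < L := sub_pos.2 (Real.log_lt_log b1 (by linarith))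
  have L1 : L < 1 / (1 + b) + 1 / (b - 1) := by
    have t1 : L = Real.log ((1 + b) / (b - 1)) := (Real.log_div (by linarith) (by linarith)).symm
    have h1 := Real.self_lt_sinh_iff.2 L0
    rw [t1, Real.sinh_log (by positivity)] at h1
    rw [t1]
    refine h1.trans_eq ?_
    have : 1 + b ≠ 0 := by linarith
    have := b1.ne'
    field_simp
    ring
  have hf : HasDerivAt (fun y : ℝ => Real.log (y + b) - Real.log (b - y) - L * y)
      (1 / (1 + b) - (-1) / (b - 1) - L * 1) 1 := by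
    have h1 : HasDerivAt (fun y : ℝ => y + b) 1 1 := (hasDerivAt_id 1).add_const b
    have h2 : HasDerivAt (fun y : ℝ => b - y) (-1) 1 := (hasDerivAt_id 1).const_sub b
    exact ((h1.log (by simp; linarith)).sub (h2.log (by simp; linarith))).sub
      ((hasDerivAt_id 1).const_mul L)
  have hpos : 0 < 1 / (1 + b) - (-1) / (b - 1) - L * 1 := by
    rw [neg_div, sub_neg_eq_add, mul_one]; linarith
  have sl := (hasDerivAt_iff_tendsto_slope.1 hf).eventually (lt_mem_nhds hpos)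
  rw [eventually_nhdsWithin_iff] at sl
  have sl2 : ∀ᶠ z in 𝓝 I, z.im ∈ ({1}ᶜ : Set ℝ) →
      0 < slope (fun y : ℝ => Real.log (y + b) - Real.log (b - y) - L * y) 1 z.im := by
    have : Tendsto im (𝓝 I) (𝓝 1) := by simpa using continuous_im.tendsto I
    exact this.eventually sl
  have lb : ∀ᶠ z in 𝓝 I, z.im < b := continuous_im.continuousAt.eventually_lt continuousAt_const
    (by simpa using hb)
  filter_upwards [self_mem_nhdsWithin, mem_nhdsWithin_of_mem_nhds sl2,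
    mem_nhdsWithin_of_mem_nhds lb] with z k hs y2 hz
  have k : z ≠ I := k
  by_contra! h
  have y0 := hz.1
  have e (s : ℝ) (w : ℂ) : ((1 + s ^ 2) / (s - w) : ℂ).im = (1 + s ^ 2) * w.im / ((s - w.re) ^ 2 + w.im ^ 2) := by
    rw [div_im, normSq_apply]
    simp [← ofReal_pow]
    ring
  have p (s : ℝ) : 1 ≤ z.re ^ 2 + z.im ^ 2 - 2 * s * z.re := by
    have := h (fun w => ((1 + s ^ 2) / (s - w) : ℂ).im) (fun w hw => AnalyticAt.harmonicAt_im (by
      have : (s : ℂ) - w ≠ 0 := fun e => by simpa [hw.1.ne'] using congrArg im e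
      fun_prop (disch := assumption))) (fun w hw => by have := hw.1; rw [e]; positivity) (by
        simp only [e, I_im, I_re]; rw [div_le_one (by positivity)]; linarith)
    simp only [e] at this
    rw [div_le_iff₀ (by positivity)] at this
    nlinarith
  have x0 : z.re = 0 := by
    by_contra c
    have := p ((z.re ^ 2 + z.im ^ 2) / (2 * z.re))
    rw [show 2 * ((z.re ^ 2 + z.im ^ 2) / (2 * z.re)) * z.re = z.re ^ 2 + z.im ^ 2 by field_simp] at this
    linarith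
  have y1 : 1 < z.im := lt_of_le_of_ne (by nlinarith [p 0]) fun e => k (Complex.ext (by simp [x0]) (by simp [← e]))
  have neF : ∀ w ∈ D F, w ≠ (b : ℂ) * I := fun w hw e => hw.2 (e ▸ hF)
  have := h (fun w => L⁻¹ * G ((b : ℂ) * I) w) (fun w hw => (Gh bim hw.1 (neF w hw)).1.const_smul)
    (fun w hw => mul_pos (inv_pos.2 L0) (Gh bim hw.1 (neF w hw)).2) (by
      have := g 1 one_pos hb
      rw [ofReal_one, one_mul] at this
      rw [this, ← hL, inv_mul_cancel₀ L0.ne'])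
  have zz : z = z.im * I := Complex.ext (by simp [x0]) (by simp)
  have hs := hs y1.ne'
  generalize z.im = y at *
  rw [slope_def_field] at hs
  have hs2 : 0 < y - 1 := by linarith
  rw [div_pos_iff_of_pos_right hs2] at hs
  simp only [zz, g y y0 y2] at this
  rw [inv_mul_le_iff₀ L0] at this
  simp only [mul_one] at hs
  rw [← hL] at hs
  linarith

/-- Cayley transforms: the half-plane to the disc, `a` to `0`. -/
noncomputable def cay (a z : ℂ) : ℂ := (z - a) / (z - starRingEnd ℂ a)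

/-- The inverse of `cay a`. -/
noncomputable def dis (a v : ℂ) : ℂ := (a - starRingEnd ℂ a * v) / (1 - v)

lemma cay_lt {a z : ℂ} (ha : 0 < a.im) (hz : 0 < z.im) : ‖cay a z‖ < 1 := by
  rw [cay, norm_div, div_lt_one (norm_pos_iff.2 (ncj ha hz.le))]
  exact nlt ha hz

lemma one_sub_ne {v : ℂ} (hv : ‖v‖ < 1) : 1 - v ≠ 0 := fun e => by
  rw [← sub_eq_zero.1 e] at hv; simp at hv

lemma acj {a : ℂ} (ha : 0 < a.im) : a - starRingEnd ℂ a ≠ 0 := ncj ha ha.le

lemma dis_im {a v : ℂ} (ha : 0 < a.im) (hv : ‖v‖ < 1) : 0 < (dis a v).im := by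
  have h1 := normSq_pos.2 (one_sub_ne hv)
  have h2 : v.re * v.re + v.im * v.im < 1 := by
    rw [← normSq_apply, normSq_eq_norm_sq]; nlinarith [norm_nonneg v]
  rw [dis, div_im, ← sub_div]
  refine div_pos ?_ h1
  have : (a - starRingEnd ℂ a * v).im * (1 - v).re - (a - starRingEnd ℂ a * v).re * (1 - v).im =
      a.im * (1 - (v.re * v.re + v.im * v.im)) := by
    simp only [sub_im, sub_re, mul_im, mul_re, conj_re, conj_im, one_re, one_im]
    ring
  rw [this]
  exact mul_pos ha (by linarith)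

lemma cay_dis {a v : ℂ} (ha : 0 < a.im) (hv : ‖v‖ < 1) : cay a (dis a v) = v := by
  have h1 := one_sub_ne hv
  have h2 := acj ha
  have e1 : dis a v - a = v * (a - starRingEnd ℂ a) / (1 - v) := by
    rw [dis]; field_simp; ring
  have e2 : dis a v - starRingEnd ℂ a = (a - starRingEnd ℂ a) / (1 - v) := by
    rw [dis]; field_simp; ring
  rw [cay, e1, e2]
  field_simp

lemma dis_cay {a z : ℂ} (ha : 0 < a.im) (hz : 0 < z.im) : dis a (cay a z) = z := by
  have h1 := ncj ha hz.le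
  have h2 := acj ha
  have e1 : 1 - cay a z = (a - starRingEnd ℂ a) / (z - starRingEnd ℂ a) := by
    rw [cay]; field_simp; ring
  have e2 : a - starRingEnd ℂ a * cay a z =
      z * (a - starRingEnd ℂ a) / (z - starRingEnd ℂ a) := by
    rw [cay]; field_simp; ring
  rw [dis, e1, e2]
  field_simp

/-- The conformal automorphism of the upper half-plane with `a ↦ b` and rotation `l`. -/
noncomputable def mob (a b l z : ℂ) : ℂ := dis b (l * cay a z)

lemma mob_lt {a z l : ℂ} (ha : 0 < a.im) (hl : ‖l‖ = 1) (hz : 0 < z.im) : ‖l * cay a z‖ < 1 := by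
  rw [norm_mul, hl, one_mul]; exact cay_lt ha hz

lemma mob_im {a b z l : ℂ} (ha : 0 < a.im) (hb : 0 < b.im) (hl : ‖l‖ = 1) (hz : 0 < z.im) :
    0 < (mob a b l z).im := dis_im hb (mob_lt ha hl hz)

lemma mob_mob {a b z l l' : ℂ} (ha : 0 < a.im) (hb : 0 < b.im) (hl : ‖l‖ = 1) (hz : 0 < z.im)
    (h : l' * l = 1) : mob b a l' (mob a b l z) = z := by
  rw [mob, mob, cay_dis hb (mob_lt ha hl hz), ← mul_assoc, h, one_mul, dis_cay ha hz]

lemma mob_an {a b z l : ℂ} (ha : 0 < a.im) (hl : ‖l‖ = 1) (hz : 0 < z.im) :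
    AnalyticAt ℂ (mob a b l) z := by
  have h1 : AnalyticAt ℂ (fun z => l * ((z - a) / (z - starRingEnd ℂ a))) z :=
    analyticAt_const.mul ((analyticAt_id.sub analyticAt_const).div
      (analyticAt_id.sub analyticAt_const) (ncj ha hz.le))
  exact (analyticAt_const.sub (analyticAt_const.mul h1)).div (analyticAt_const.sub h1)
    (one_sub_ne (mob_lt ha hl hz))

lemma mob_pole {a b l : ℂ} : mob a b l a = b := by simp [mob, cay, dis]

/-- **Main theorem.** -/
theorem result (F : Finset ℂ) (hF : F.Nonempty) (hFH : ∀ a ∈ F, 0 < a.im) (z₀ : ℂ)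
    (hz₀ : z₀ ∈ D F) :
    (IsOpen (D F) ∧ IsConnected (D F) ∧ ¬ SimplyConnectedSpace (D F)) ∧
    -- the domain has a Green function `g` with pole `z₀`
    (∃ g : ℂ → ℝ, HarmonicOnNhd g (D F \ {z₀}) ∧ (∀ z ∈ D F \ {z₀}, 0 < g z) ∧
      (∃ h : ℂ → ℝ, HarmonicOnNhd h (D F) ∧ ∀ z ∈ D F \ {z₀}, h z = g z + Real.log ‖z - z₀‖) ∧
      (∀ u : ℂ → ℝ, (HarmonicOnNhd u (D F \ {z₀}) ∧ (∀ z ∈ D F \ {z₀}, 0 < u z) ∧
          (∃ h : ℂ → ℝ, HarmonicOnNhd h (D F) ∧
            ∀ z ∈ D F \ {z₀}, h z = u z + Real.log ‖z - z₀‖)) →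
          ∀ z ∈ D F \ {z₀}, g z ≤ u z)) ∧
    -- there is a normalised minimal positive harmonic function `K` (a Martin kernel)
    ∃ K : ℂ → ℝ, HarmonicOnNhd K (D F) ∧ (∀ z ∈ D F, 0 < K z) ∧ K z₀ = 1 ∧
      (∀ u : ℂ → ℝ, HarmonicOnNhd u (D F) → (∀ z ∈ D F, 0 < u z ∧ u z ≤ K z) →
        ∃ c : ℝ, ∀ z ∈ D F, u z = c * K z) ∧
      -- `K` is smaller than the Harnack function at every point near `z₀` other than `z₀`
      (∀ᶠ z in 𝓝[≠] z₀, ∃ u : ℂ → ℝ, HarmonicOnNhd u (D F) ∧ (∀ w ∈ D F, 0 < u w) ∧ u z₀ ≤ 1 ∧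
        K z < u z) ∧
      -- so it touches it along no curve leading to `z₀`, in particular along no Green line
      ∀ (m : ℝ) (γ : ℝ → ℂ), (∀ s, m < s → γ s ≠ z₀) → Tendsto γ atTop (𝓝 z₀) →
        ∃ s, m < s ∧ ∃ u : ℂ → ℝ, HarmonicOnNhd u (D F) ∧ (∀ w ∈ D F, 0 < u w) ∧ u z₀ ≤ 1 ∧
          K (γ s) < u (γ s) := by
  classical
  obtain ⟨p, hp⟩ := hF
  have hI : 0 < I.im := by simp
  have hpz : p ≠ z₀ := fun e => hz₀.2 (e ▸ hp)
  have hc : cay z₀ p ≠ 0 := div_ne_zero (sub_ne_zero.2 hpz) (ncj hz₀.1 (hFH p hp).le)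
  have hr0 : 0 < ‖cay z₀ p‖ := norm_pos_iff.2 hc
  have hr1 : ‖cay z₀ p‖ < 1 := cay_lt hz₀.1 (hFH p hp)
  obtain ⟨l, hl⟩ : ∃ l : ℂ, l = starRingEnd ℂ (cay z₀ p) / ‖cay z₀ p‖ := ⟨_, rfl⟩
  have hl1 : ‖l‖ = 1 := by
    rw [hl, norm_div, norm_conj, norm_real, Real.norm_eq_abs, abs_of_pos hr0, div_self hr0.ne']
  have hl2 : l * cay z₀ p = (‖cay z₀ p‖ : ℂ) := by
    have h3 : (‖cay z₀ p‖ : ℂ) ≠ 0 := by exact_mod_cast hr0.ne'
    rw [hl, div_mul_eq_mul_div, mul_comm, mul_conj, normSq_eq_norm_sq, div_eq_iff h3]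
    push_cast
    ring
  have hll : starRingEnd ℂ l * l = 1 := by
    rw [mul_comm, mul_conj, normSq_eq_norm_sq, hl1]; simp
  have hll' : l * starRingEnd ℂ l = 1 := by rw [mul_comm]; exact hll
  have hl1' : ‖starRingEnd ℂ l‖ = 1 := by rw [norm_conj, hl1]
  obtain ⟨φ, hφ⟩ : ∃ φ : ℂ → ℂ, φ = mob z₀ I l := ⟨_, rfl⟩
  obtain ⟨ψ, hψ⟩ : ∃ ψ : ℂ → ℂ, ψ = mob I z₀ (starRingEnd ℂ l) := ⟨_, rfl⟩
  have f1 : ∀ z, 0 < z.im → 0 < (φ z).im := fun z hz => by rw [hφ]; exact mob_im hz₀.1 hI hl1 hz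
  have f2 : ∀ z, 0 < z.im → ψ (φ z) = z := fun z hz => by
    rw [hφ, hψ]; exact mob_mob hz₀.1 hI hl1 hz hll
  have f3 : ∀ z, 0 < z.im → AnalyticAt ℂ φ z := fun z hz => by rw [hφ]; exact mob_an hz₀.1 hl1 hz
  have g1 : ∀ z, 0 < z.im → 0 < (ψ z).im := fun z hz => by rw [hψ]; exact mob_im hI hz₀.1 hl1' hz
  have g2 : ∀ z, 0 < z.im → φ (ψ z) = z := fun z hz => by
    rw [hφ, hψ]; exact mob_mob hI hz₀.1 hl1' hz hll'
  have g3 : ∀ z, 0 < z.im → AnalyticAt ℂ ψ z := fun z hz => by rw [hψ]; exact mob_an hI hl1' hz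
  have fz : φ z₀ = I := by rw [hφ, mob_pole]
  have gz : ψ I = z₀ := by rw [hψ, mob_pole]
  obtain ⟨F', hF'⟩ : ∃ F' : Finset ℂ, F' = F.image φ := ⟨_, rfl⟩
  have m1 : ∀ z ∈ D F, φ z ∈ D F' := fun z hz => ⟨f1 z hz.1, fun h => by
    rw [hF'] at h
    obtain ⟨a, ha, e⟩ := Finset.mem_image.1 h
    have := congrArg ψ e
    rw [f2 a (hFH a ha), f2 z hz.1] at this
    exact hz.2 (this ▸ ha)⟩
  have m2 : ∀ z ∈ D F', ψ z ∈ D F := fun z hz => ⟨g1 z hz.1, fun h => hz.2 (by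
    rw [hF']
    exact Finset.mem_image.2 ⟨_, h, g2 z hz.1⟩)⟩
  have hID : I ∈ D F' := fz ▸ m1 z₀ hz₀
  -- the puncture on the imaginary axis
  obtain ⟨b, hb⟩ : ∃ b : ℝ, b = (1 + ‖cay z₀ p‖) / (1 - ‖cay z₀ p‖) := ⟨_, rfl⟩
  have hb1 : 1 < b := by
    rw [hb, lt_div_iff₀ (by linarith)]; linarith
  have hbF : (b : ℂ) * I ∈ F' := by
    rw [hF']
    refine Finset.mem_image.2 ⟨p, hp, ?_⟩
    rw [hφ, mob, hl2, dis, hb]
    have h3 : (1 : ℂ) - (‖cay z₀ p‖ : ℂ) ≠ 0 := by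
      have : (1 - ‖cay z₀ p‖ : ℝ) ≠ 0 := by linarith
      exact_mod_cast this
    push_cast
    rw [conj_I, neg_mul, sub_neg_eq_add, div_mul_eq_mul_div]
    congr 1
    ring
  have hK := notouch hb1 hbF
  have key : ∀ᶠ z in 𝓝[≠] z₀, ∃ u : ℂ → ℝ, HarmonicOnNhd u (D F) ∧ (∀ w ∈ D F, 0 < u w) ∧
      u z₀ ≤ 1 ∧ (φ z).im < u z := by
    have t : Tendsto φ (𝓝[≠] z₀) (𝓝[≠] I) := by
      refine tendsto_nhdsWithin_iff.2 ⟨?_, ?_⟩
      · have := (f3 z₀ hz₀.1).continuousAt.tendsto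
        rw [fz] at this
        exact this.mono_left nhdsWithin_le_nhds
      · filter_upwards [self_mem_nhdsWithin, mem_nhdsWithin_of_mem_nhds ((Do F).mem_nhds hz₀)]
          with z h1 h2 h3
        apply h1
        have := congrArg ψ (show φ z = I from h3)
        rwa [f2 z h2.1, gz] at this
    filter_upwards [t.eventually hK, mem_nhdsWithin_of_mem_nhds ((Do F).mem_nhds hz₀)] with z h1 h2
    obtain ⟨u, u1, u2, u3, u4⟩ := h1 (m1 z h2)
    exact ⟨fun w => u (φ w), fun w hw => hcomp (u1 _ (m1 w hw)) (f3 w hw.1),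
      fun w hw => u2 _ (m1 w hw), by simpa only [fz] using u3, u4⟩
  refine ⟨⟨Do F, Dc F, Dn hp (hFH p hp)⟩, ⟨G z₀, fun z hz => (Gh hz₀.1 hz.1.1 hz.2).1,
    fun z hz => (Gh hz₀.1 hz.1.1 hz.2).2, ⟨fun z => Real.log ‖z - starRingEnd ℂ z₀‖, ?_, ?_⟩, ?_⟩,
    fun z => (φ z).im, fun z hz => hcomp (him _) (f3 z hz.1), fun z hz => f1 z hz.1, ?_, ?_, key, ?_⟩
  · intro z hz
    have h1 : HarmonicAt (fun z : ℂ => Real.log ‖z + -starRingEnd ℂ z₀‖) z :=
      hlog (by simpa [sub_eq_add_neg] using ncj hz₀.1 hz.1.le)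
    simpa only [← sub_eq_add_neg] using! h1
  · intro z _
    simp [G]
  · rintro u ⟨-, u0, h, hh, e⟩
    exact Gmin hz₀ u0 hh e
  · simp [fz]
  · intro u hu h
    have h2 := Kmin hID (u := fun w => u (ψ w)) (fun w hw => hcomp (hu _ (m2 w hw)) (g3 w hw.1))
      (fun w hw => ⟨(h _ (m2 w hw)).1, by
        have : u (ψ w) ≤ (φ (ψ w)).im := (h _ (m2 w hw)).2
        rwa [g2 w hw.1] at this⟩)
    refine ⟨u (ψ I), fun z hz => ?_⟩
    have := h2 (φ z) (m1 z hz)
    simpa only [f2 z hz.1] using this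
  · intro m γ h1 h2
    have t : Tendsto γ atTop (𝓝[≠] z₀) := tendsto_nhdsWithin_iff.2
      ⟨h2, (eventually_gt_atTop m).mono fun s hs => h1 s hs⟩
    obtain ⟨s, hs1, hs2⟩ := ((eventually_gt_atTop m).and (t.eventually key)).exists
    exact ⟨s, hs1, hs2⟩

end Pool.Agent.Results.MP_e6ddea_an.FinitePunctures
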